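import Mathlib

/-!
MP_9880a5_co, Q1: every connected self 2-distance graph with at least two vertices is 2-connected.
This is false: an explicit connected self 2-distance graph on 13 vertices with a cut vertex.
-/

namespace Pool.Agent.Results.MP_9880a5_co.CutVertex

open SimpleGraph

/-- The 2-distance graph of `G`: same vertices, `x` and `y` adjacent exactly when they are at
distance exactly two in `G`. -/
def twoDistanceGraph {V : Type*} (G : SimpleGraph V) : SimpleGraph V where
  Adj x y := G.dist x y = 2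
  symm := ⟨fun x y h => by rw [SimpleGraph.dist_comm]; exact h⟩
  loopless := ⟨fun x h => by simp at h⟩

/-- A self 2-distance graph: isomorphic to its own 2-distance graph. -/
def IsSelfTwoDistance {V : Type*} (G : SimpleGraph V) : Prop :=
  Nonempty (twoDistanceGraph G ≃g G)

/-- A finite graph is 2-connected if it has at least three vertices and it remains connected after
the deletion of any one vertex. -/
def IsTwoConnected {V : Type*} [Fintype V] (G : SimpleGraph V) : Prop :=
  3 ≤ Fintype.card V ∧ ∀ v : V, (G.induce {w : V | w ≠ v}).Connected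

/-- The edges of the 13-vertex example. -/
def edgeList : List (Fin 13 × Fin 13) :=
  [(0, 1), (0, 6), (1, 12), (2, 7), (2, 9), (2, 11), (3, 4), (3, 7), (5, 8), (6, 11),
    (8, 10), (8, 12), (10, 12)]

/-- The 13-vertex example. -/
def Γ : SimpleGraph (Fin 13) where
  Adj x y := (x, y) ∈ edgeList ∨ (y, x) ∈ edgeList
  symm := ⟨fun _ _ h => h.symm⟩
  loopless := ⟨by unfold edgeList; decide⟩

instance : DecidableRel Γ.Adj := fun x y => by unfold Γ; infer_instance

theorem dist_eq_two_iff {V : Type*} (G : SimpleGraph V) (x y : V) :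
    G.dist x y = 2 ↔ x ≠ y ∧ ¬ G.Adj x y ∧ ∃ z, G.Adj x z ∧ G.Adj z y := by
  constructor
  · intro h
    refine ⟨?_, ?_, ?_⟩
    · rintro rfl; simp at h
    · intro ha
      rw [SimpleGraph.dist_eq_one_iff_adj.mpr ha] at h
      omega
    · have hne : G.dist x y ≠ 0 := by omega
      obtain ⟨p, hp⟩ := SimpleGraph.exists_walk_of_dist_ne_zero hne
      rw [h] at hp
      cases p with
      | nil => simp at hp
      | cons h1 q =>
        cases q with
        | nil => simp at hp
        | cons h2 r =>
          cases r with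
          | nil => exact ⟨_, h1, h2⟩
          | cons h3 s => simp at hp
  · rintro ⟨hne, hna, z, h1, h2⟩
    have hle : G.dist x y ≤ 2 := by
      have := SimpleGraph.dist_le (Walk.cons h1 (Walk.cons h2 Walk.nil))
      simpa using this
    have hr : G.Reachable x y := ⟨Walk.cons h1 (Walk.cons h2 Walk.nil)⟩
    have h0 : G.dist x y ≠ 0 := by
      intro h
      exact hne (hr.dist_eq_zero_iff.mp h)
    have h1' : G.dist x y ≠ 1 := by
      intro h
      exact hna (SimpleGraph.dist_eq_one_iff_adj.mp h)
    omega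

theorem shift_adj : ∀ x y : Fin 13,
    Γ.Adj (x + 1) (y + 1) ↔ (x ≠ y ∧ ¬ Γ.Adj x y ∧ ∃ z, Γ.Adj x z ∧ Γ.Adj z y) := by
  decide

theorem selfTwoDistance : IsSelfTwoDistance Γ := by
  refine ⟨⟨Equiv.addRight (1 : Fin 13), ?_⟩⟩
  intro x y
  show Γ.Adj (x + 1) (y + 1) ↔ Γ.dist x y = 2
  rw [dist_eq_two_iff]
  exact shift_adj x y

theorem reach0 : ∀ v : Fin 13, Γ.Reachable 0 v := by
  have e (x y : Fin 13) (h : Γ.Adj x y) : Γ.Reachable x y := h.reachable
  have h1 : Γ.Reachable 0 1 := e _ _ (by decide)
  have h12 : Γ.Reachable 0 12 := h1.trans (e _ _ (by decide))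
  have h8 : Γ.Reachable 0 8 := h12.trans (e _ _ (by decide))
  have h10 : Γ.Reachable 0 10 := h12.trans (e _ _ (by decide))
  have h5 : Γ.Reachable 0 5 := h8.trans (e _ _ (by decide))
  have h6 : Γ.Reachable 0 6 := e _ _ (by decide)
  have h11 : Γ.Reachable 0 11 := h6.trans (e _ _ (by decide))
  have h2 : Γ.Reachable 0 2 := h11.trans (e _ _ (by decide))
  have h9 : Γ.Reachable 0 9 := h2.trans (e _ _ (by decide))
  have h7 : Γ.Reachable 0 7 := h2.trans (e _ _ (by decide))
  have h3 : Γ.Reachable 0 3 := h7.trans (e _ _ (by decide))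
  have h4 : Γ.Reachable 0 4 := h3.trans (e _ _ (by decide))
  intro v
  fin_cases v
  · exact Reachable.refl 0
  · exact h1
  · exact h2
  · exact h3
  · exact h4
  · exact h5
  · exact h6
  · exact h7
  · exact h8
  · exact h9
  · exact h10
  · exact h11
  · exact h12

theorem connected : Γ.Connected := by
  have : Nonempty (Fin 13) := ⟨0⟩
  refine ⟨fun u v => ?_⟩
  exact (reach0 u).symm.trans (reach0 v)

theorem nbr4 : ∀ w : Fin 13, Γ.Adj 4 w → w = 3 := by decide

theorem cut : ¬ (Γ.induce {w : Fin 13 | w ≠ 3}).Connected := by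
  intro h
  have h4 : (4 : Fin 13) ∈ {w : Fin 13 | w ≠ 3} := by
    show (4 : Fin 13) ≠ 3
    decide
  have h7 : (7 : Fin 13) ∈ {w : Fin 13 | w ≠ 3} := by
    show (7 : Fin 13) ≠ 3
    decide
  obtain ⟨p⟩ := h.preconnected ⟨4, h4⟩ ⟨7, h7⟩
  cases p with
  | cons h1 q =>
    rename_i v
    have h1' : Γ.Adj 4 v.1 := h1
    exact v.2 (nbr4 v.1 h1')

/-- There is a connected self 2-distance graph (on 13 vertices) with a cut vertex; hence it is not
true that every connected self 2-distance graph with at least two vertices is 2-connected. -/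
theorem result :
    (∃ G : SimpleGraph (Fin 13), G.Connected ∧ IsSelfTwoDistance G ∧
      ∃ v : Fin 13, ¬ (G.induce {w : Fin 13 | w ≠ v}).Connected) ∧
    ¬ (∀ (V : Type) [Fintype V] (G : SimpleGraph V), G.Connected → 2 ≤ Fintype.card V →
      IsSelfTwoDistance G → IsTwoConnected G) := by
  refine ⟨⟨Γ, connected, selfTwoDistance, 3, cut⟩, ?_⟩
  intro h
  have := h (Fin 13) Γ connected (by simp) selfTwoDistance
  exact cut (this.2 3)

end Pool.Agent.Results.MP_9880a5_co.CutVertex
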